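import Mathlib

/-!
# Normal ultrafilters

`A` is a linearly (in fact well-) ordered type; `NUF U` says that `U` is a normal ultrafilter on `A`.
-/

universe u

namespace Pool.Agent.Lib.MP_8fac41_lc.FR

open Cardinal

/-- `U` is a normal ultrafilter on `A`: it contains all final segments and is closed under diagonal
intersections -/
structure NUF {A : Type u} [LinearOrder A] (U : Ultrafilter A) : Prop where
  tail : ∀ a, {x | a < x} ∈ U
  diag : ∀ X : A → Set A, (∀ a, X a ∈ U) → {x | ∀ a < x, x ∈ X a} ∈ U

variable {A : Type u} [LinearOrder A] {U : Ultrafilter A}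

/-- in an ultrafilter -/
theorem uf_or {X : Set A} (h : X ∉ U) : Xᶜ ∈ U := Ultrafilter.compl_mem_iff_notMem.2 h

theorem NUF.exists_gt (hU : NUF U) (a : A) : ∃ b, a < b := by
  obtain ⟨b, hb⟩ := Ultrafilter.nonempty_of_mem (hU.tail a)
  exact ⟨b, hb⟩

/-- intersections of families indexed by a proper initial segment -/
theorem NUF.bdd (hU : NUF U) (a : A) (X : A → Set A) (hX : ∀ b < a, X b ∈ U) : {x | ∀ b < a, x ∈ X b} ∈ U := by
  classical
  have h1 := hU.diag (fun b => if b < a then X b else Set.univ) (fun b => by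
    by_cases h : b < a
    · simpa only [h, if_true] using hX b h
    · simp only [h, if_false]
      exact Filter.univ_mem)
  refine Filter.mem_of_superset (Filter.inter_mem h1 (hU.tail a)) ?_
  rintro x ⟨h2, h3⟩ b hb
  have h4 := h2 b (hb.trans h3)
  simpa only [hb, if_true] using h4

/-- regressive functions are constant on a large set -/
theorem NUF.press (hU : NUF U) (f : A → A) (hf : {x | f x < x} ∈ U) : ∃ c, {x | f x = c} ∈ U := by
  by_contra h
  have h1 : ∀ c, {x | f x ≠ c} ∈ U := by
    intro c
    have h2 : {x | f x = c} ∉ U := fun h3 => h ⟨c, h3⟩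
    exact uf_or h2
  have h3 := Filter.inter_mem (hU.diag _ h1) hf
  obtain ⟨x, hx1, hx2⟩ := Ultrafilter.nonempty_of_mem h3
  exact hx1 (f x) hx2 rfl

theorem NUF.ne (hU : NUF U) (a : A) : {x | x ≠ a} ∈ U := by
  refine Filter.mem_of_superset (hU.tail a) ?_
  intro x hx
  exact ne_of_gt hx

end Pool.Agent.Lib.MP_8fac41_lc.FR
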