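import Pool.Agent.Lib.MP_8fac41_lc.FR.U.Strong1

/-!
# Strong limit (module FR-U-Strong)

`mk_set_lt`: let `#ι < #A`. If `#A ≤ #(Set ι)` there is an injection `F : A → Set ι`. For `i : ι` one of
`{x | i ∈ F x}`, `{x | i ∉ F x}` is in `U`; call it `X i`. By `inter` there is a set in `U` on which `F` is constant, so
(injectivity) a set in `U` with at most one element, contradicting `NUF.ne`.
`mk_fun_lt`: the functions `ι → Set.Iio a` inject into `Set (ι × Set.Iio a)`; `#(ι × Set.Iio a) < #A` since `A` is infinite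
(`Cardinal.mul_lt_of_lt`, `NUF.aleph0_lt`, `NUF.mk_Iio_lt`).
-/

universe u

namespace Pool.Agent.Lib.MP_8fac41_lc.FR

open Cardinal

variable {A : Type u} [LinearOrder A] [WellFoundedLT A] {U : Ultrafilter A}

theorem NUF.mk_set_lt (hU : NUF U) {ι : Type u} (hι : #ι < #A) : #(Set ι) < #A := by
  classical
  by_contra h
  rw [not_lt] at h
  obtain ⟨F⟩ := (Cardinal.le_def _ _).1 h
  let X : ι → Set A := fun i => if {x : A | i ∈ F x} ∈ U then {x | i ∈ F x} else {x | i ∉ F x}
  have hX : ∀ i, X i ∈ U := by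
    intro i
    by_cases h1 : {x : A | i ∈ F x} ∈ U
    · have h2 : X i = {x | i ∈ F x} := if_pos h1
      rw [h2]
      exact h1
    · have h2 : X i = {x | i ∉ F x} := if_neg h1
      rw [h2]
      exact uf_or h1
  have h1 := hU.inter hι X hX
  obtain ⟨x, hx⟩ := Ultrafilter.nonempty_of_mem h1
  obtain ⟨y, ⟨hy, hne⟩⟩ := Ultrafilter.nonempty_of_mem (Filter.inter_mem h1 (hU.ne x))
  apply hne
  apply F.injective
  ext i
  have h2 := hx i
  have h3 := hy i
  by_cases h4 : {x : A | i ∈ F x} ∈ U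
  · have h5 : X i = {x | i ∈ F x} := if_pos h4
    rw [h5] at h2 h3
    exact ⟨fun _ => h2, fun _ => h3⟩
  · have h5 : X i = {x | i ∉ F x} := if_neg h4
    rw [h5] at h2 h3
    exact ⟨fun h6 => absurd h6 h3, fun h6 => absurd h6 h2⟩

theorem NUF.mk_fun_lt (hU : NUF U) {ι : Type u} (hι : #ι < #A) (a : A) : #(ι → Set.Iio a) < #A := by
  have h1 : #(ι × Set.Iio a) < #A := by
    rw [Cardinal.mk_prod, Cardinal.lift_id, Cardinal.lift_id]
    exact Cardinal.mul_lt_of_lt hU.aleph0_lt.le hι (hU.mk_Iio_lt a)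
  refine lt_of_le_of_lt ?_ (hU.mk_set_lt h1)
  refine Cardinal.mk_le_of_injective (f := fun (g : ι → Set.Iio a) => {p : ι × Set.Iio a | g p.1 = p.2}) ?_
  intro g g' h
  funext i
  have h2 : (i, g i) ∈ {p : ι × Set.Iio a | g p.1 = p.2} := rfl
  have h3 : {p : ι × Set.Iio a | g p.1 = p.2} = {p : ι × Set.Iio a | g' p.1 = p.2} := h
  rw [h3] at h2
  exact (show g' i = g i from h2).symm

end Pool.Agent.Lib.MP_8fac41_lc.FR
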