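import Pool.Agent.Lib.MP_8fac41_lc.FR.U.Strong

/-!
# Representing functions (module FR-U-Rep)

`Rep U rep` says that `rep a` (`a : K`) represents the ordinal `a` in the ultrapower by `U`: the ordered set of all
functions `D → K` modulo `U` is isomorphic to `K`.

Proof of `exists_rep`. Let `G` be the type of all functions `D → K` modulo `U` with its linear order (`Filter.Germ (U : Filter D) K`
has a `LinearOrder` instance for ultrafilters; or work with the preorder directly). It is well ordered: a descending
sequence `f n` has `{x | f (n+1) x < f n x} ∈ U` for all `n`, `NUF.ctbl`. Proper initial segments are small: if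
`f : D → K`, then `f` is bounded by some `c : K` (`NUF.bdd_of_small hW (Set.range f)`, `#(Set.range f) ≤ #D < #K`), so every `g`
below `f` mod `U` is equal mod `U` to a function `D → Set.Iio c` (or `≤ c`), and there are less than `#K` of them (`NUF.mk_fun_lt hW`). So the order type of
`G` is at most `(#K).ord`; it is at least the order type of `K`, since the constant functions embed `K`; and the
order type of `K` is `(#K).ord` since its proper initial segments are small (`NUF.mk_Iio_lt hW`). So `K` and `G` are isomorphic; let
`rep a` be a representative of the image of `a`.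
(Alternative without ordinals: define `rk f : K` by well-founded recursion as the least element above all `rk g`, `g <_U f`, which exists by
`NUF.bdd_of_small`; show that `rk` is onto `K`: its range is an initial segment of `K`, and it is unbounded since `rk (const a) ≥ a`.
Let `rep a` be any `f` with `rk f = a`; by linearity of `<_U`, `rk f = rk g` implies `f =_U g`.)
-/

universe u

namespace Pool.Agent.Lib.MP_8fac41_lc.FR

open Cardinal

variable {D K : Type u} [LinearOrder D] [WellFoundedLT D] [LinearOrder K] [WellFoundedLT K]

omit [LinearOrder D] [WellFoundedLT D] [WellFoundedLT K] in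
/-- `rep a` represents `a` in the ultrapower by `U` -/
structure Rep (U : Ultrafilter D) (rep : K → D → K) : Prop where
  lt : ∀ a b, a < b → {x | rep a x < rep b x} ∈ U
  cov : ∀ f : D → K, ∃ a, {x | rep a x = f x} ∈ U

omit [LinearOrder K] [WellFoundedLT K] [LinearOrder D] [WellFoundedLT D] in
private theorem exists_coe {U : Ultrafilter D} (F : Filter.Germ (U : Filter D) K) :
    ∃ f : D → K, (f : Filter.Germ (U : Filter D) K) = F := Quotient.exists_rep F

private theorem germ_wf {U : Ultrafilter D} (hU : NUF U) :
    WellFounded ((· < ·) : Filter.Germ (U : Filter D) K → Filter.Germ (U : Filter D) K → Prop) := by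
  rw [wellFounded_iff_isEmpty_descending_chain]
  refine ⟨fun ⟨F, hF⟩ => ?_⟩
  choose f hf using fun n => exists_coe (F n)
  have h2 : ∀ n, {x | f (n + 1) x < f n x} ∈ U := by
    intro n
    have h3 := hF n
    rw [← hf, ← hf] at h3
    exact Filter.Germ.coe_lt.1 h3
  obtain ⟨x, hx⟩ := Ultrafilter.nonempty_of_mem (hU.ctbl _ h2)
  exact (wellFounded_iff_isEmpty_descending_chain.1 (wellFounded_lt (α := K))).false ⟨fun n => f n x, hx⟩

omit [LinearOrder D] [WellFoundedLT D] in
private theorem germ_small {U : Ultrafilter D} {W : Ultrafilter K} (hW : NUF W) (hDK : #D < #K)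
    (F : Filter.Germ (U : Filter D) K) : #{G : Filter.Germ (U : Filter D) K // G < F} < #K := by
  classical
  obtain ⟨f, rfl⟩ := exists_coe F
  obtain ⟨c, hc⟩ := hW.bdd_of_small (Set.range f) (Cardinal.mk_range_le.trans_lt hDK)
  have hc' : ∀ x, f x < c := fun x => hc _ ⟨x, rfl⟩
  refine lt_of_le_of_lt ?_ (hW.mk_fun_lt hDK c)
  have h0 : {G : Filter.Germ (U : Filter D) K | G < (f : Filter.Germ (U : Filter D) K)} ⊆
      Set.range (fun h : D → Set.Iio c => ((fun x => (h x : K) : D → K) : Filter.Germ (U : Filter D) K)) := by
    intro G hG
    obtain ⟨g, rfl⟩ := exists_coe G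
    have h1 : {x | g x < f x} ∈ U := Filter.Germ.coe_lt.1 hG
    refine ⟨fun x => if h : g x < c then ⟨g x, h⟩ else ⟨f x, hc' x⟩, ?_⟩
    apply Filter.Germ.coe_eq.2
    refine Filter.mem_of_superset h1 fun x hx => ?_
    have h2 : g x < c := lt_trans hx (hc' x)
    simp only [h2, Set.mem_ofPred_eq, dite_true]
  exact (Cardinal.mk_le_mk_of_subset h0).trans Cardinal.mk_range_le

theorem exists_rep {U : Ultrafilter D} (hU : NUF U) {W : Ultrafilter K} (hW : NUF W) (hDK : #D < #K) :
    ∃ rep : K → D → K, Rep U rep := by
  have hwf := germ_wf (K := K) hU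
  have : WellFoundedLT (Filter.Germ (U : Filter D) K) := ⟨hwf⟩
  have key : Nonempty (((· < ·) : K → K → Prop) ≃r
      ((· < ·) : Filter.Germ (U : Filter D) K → Filter.Germ (U : Filter D) K → Prop)) := by
    rcases InitialSeg.total ((· < ·) : K → K → Prop)
      ((· < ·) : Filter.Germ (U : Filter D) K → Filter.Germ (U : Filter D) K → Prop) with f | f
    · rcases f.principalSumRelIso with g | g
      · exfalso
        have h1 : #{G : Filter.Germ (U : Filter D) K // G < g.top} = #K := Cardinal.mk_congr g.subrelIso.toEquiv
        exact absurd (germ_small hW hDK g.top) (not_lt.2 h1.symm.le)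
      · exact ⟨g⟩
    · rcases f.principalSumRelIso with g | g
      · exfalso
        have h1 : #{a : K // a < g.top} = #(Filter.Germ (U : Filter D) K) := Cardinal.mk_congr g.subrelIso.toEquiv
        have h2 : #K ≤ #(Filter.Germ (U : Filter D) K) :=
          Cardinal.mk_le_of_injective (f := fun a : K => ((a : K) : Filter.Germ (U : Filter D) K))
            (fun a b h => by
              rcases lt_trichotomy a b with h3 | h3 | h3
              · exact absurd h (Filter.Germ.const_lt h3).ne
              · exact h3
              · exact absurd h.symm (Filter.Germ.const_lt h3).ne)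
        exact absurd (hW.mk_Iio_lt g.top) (not_lt.2 (h2.trans h1.symm.le))
      · exact ⟨g.symm⟩
  obtain ⟨e⟩ := key
  choose rep hrep using fun a => exists_coe (e a)
  refine ⟨rep, ⟨fun a b hab => ?_, fun f => ?_⟩⟩
  · have h1 : e a < e b := e.map_rel_iff.2 hab
    rw [← hrep, ← hrep] at h1
    exact Filter.Germ.coe_lt.1 h1
  · refine ⟨e.symm (f : Filter.Germ (U : Filter D) K), ?_⟩
    have h1 := hrep (e.symm (f : Filter.Germ (U : Filter D) K))
    rw [e.apply_symm_apply] at h1
    exact Filter.Germ.coe_eq.1 h1

end Pool.Agent.Lib.MP_8fac41_lc.FR
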