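import Pool.Agent.Lib.MP_8fac41_lc.FR.U.Rep

/-!
# Elementary properties of representing functions (module FR-U-RepBasic)

All follow from `Rep.lt`, `Rep.cov` and the fact that `U` is an ultrafilter. `exists_lt`: by `cov` there is `b`
with `rep b =_U g`; if `a ≤ b` then `rep a ≤_U rep b = g`, contradiction. `exists_const_lt`: choose `b` with
`rep b x = c` for `U`-many `x`. `le_const`: `a ↦ j a` with `rep (j a) =_U const a` is strictly increasing on the well-ordered
`K`, so `a ≤ j a` (`StrictMono.le_apply`, `StrictMono.id_le`), so `rep a ≤_U const a`.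
-/

universe u

namespace Pool.Agent.Lib.MP_8fac41_lc.FR

open Cardinal

variable {D K : Type u} [LinearOrder K] [WellFoundedLT K] {U : Ultrafilter D} {rep : K → D → K}

private theorem uf_absurd {X Y : Set D} (hX : X ∈ U) (hY : Y ∈ U) (h : ∀ x, x ∈ X → x ∈ Y → False) : False := by
  obtain ⟨x, hx, hy⟩ := Ultrafilter.nonempty_of_mem (Filter.inter_mem hX hY)
  exact h x hx hy

theorem Rep.lt_iff (h : Rep U rep) {a b : K} : {x | rep a x < rep b x} ∈ U ↔ a < b := by
  refine ⟨fun h1 => ?_, fun h1 => h.lt a b h1⟩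
  rcases lt_trichotomy a b with h2 | h2 | h2
  · exact h2
  · subst h2
    exact (uf_absurd h1 h1 fun x hx _ => lt_irrefl _ hx).elim
  · exact (uf_absurd h1 (h.lt b a h2) fun x hx hy => lt_asymm hx hy).elim

theorem Rep.eq_of (h : Rep U rep) {a b : K} (hab : {x | rep a x = rep b x} ∈ U) : a = b := by
  rcases lt_trichotomy a b with h2 | h2 | h2
  · exact (uf_absurd hab (h.lt a b h2) fun x hx hy => ne_of_lt hy hx).elim
  · exact h2
  · exact (uf_absurd hab (h.lt b a h2) fun x hx hy => ne_of_gt hy hx).elim

/-- a function which is smaller than `rep a` represents some `b < a` -/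
theorem Rep.exists_lt (h : Rep U rep) {a : K} {g : D → K} (hg : {x | g x < rep a x} ∈ U) :
    ∃ b < a, {x | rep b x = g x} ∈ U := by
  obtain ⟨b, hb⟩ := h.cov g
  refine ⟨b, h.lt_iff.1 ?_, hb⟩
  refine Filter.mem_of_superset (Filter.inter_mem hb hg) ?_
  rintro x ⟨hx, hy⟩
  have hx' : rep b x = g x := hx
  have hy' : g x < rep a x := hy
  exact hx'.trans_lt hy'

/-- the ordinal represented by a constant function -/
theorem Rep.exists_const (h : Rep U rep) (a : K) : ∃ b, a ≤ b ∧ {x | rep b x = a} ∈ U := by
  choose j hj using fun a : K => h.cov (fun _ => a)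
  refine ⟨j a, ?_, hj a⟩
  have hmono : StrictMono j := by
    intro c d hcd
    refine h.lt_iff.1 ?_
    refine Filter.mem_of_superset (Filter.inter_mem (hj c) (hj d)) ?_
    rintro x ⟨hx, hy⟩
    have hx' : rep (j c) x = c := hx
    have hy' : rep (j d) x = d := hy
    change rep (j c) x < rep (j d) x
    rw [hx', hy']
    exact hcd
  exact hmono.le_apply

end Pool.Agent.Lib.MP_8fac41_lc.FR
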