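import Mathlib

/-!
# FR/U: normal ultrafilters, regularity and strong limits from a `κ`-complete ultrafilter
-/

set_option autoImplicit false

universe u

namespace Pool.MP_8fac41_lc.FR

open Cardinal Set Filter

section

variable {K : Type u} {κ : Cardinal.{u}} {F : Ultrafilter K}

/-- completeness for families indexed by a type -/
private theorem Meas_fam (hc : ∀ s : Set (Set K), #s < κ → (∀ A ∈ s, A ∈ F) → ⋂₀ s ∈ F)
    {ι : Type u} (hι : #ι < κ) (P : ι → K → Prop) (h : ∀ i, ∀ᶠ x in (F : Filter K), P i x) :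
    ∀ᶠ x in (F : Filter K), ∀ i, P i x := by
  have h1 := hc (range fun i => {x | P i x}) (mk_range_le.trans_lt hι) (by
    rintro A ⟨i, rfl⟩
    exact h i)
  refine mem_of_superset h1 ?_
  intro x hx i
  exact hx {x | P i x} ⟨i, rfl⟩

private theorem Meas_small (hc : ∀ s : Set (Set K), #s < κ → (∀ A ∈ s, A ∈ F) → ⋂₀ s ∈ F)
    (hnp : ∀ x : K, {x} ∉ F) {S : Set K} (hS : #S < κ) : ∀ᶠ x in (F : Filter K), x ∉ S := by
  have h1 := Meas_fam hc hS (fun (s : S) (x : K) => x ≠ s.1) (fun s =>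
    Ultrafilter.compl_mem_iff_notMem.mpr (hnp s.1))
  filter_upwards [h1] with x hx hxS
  exact hx ⟨x, hxS⟩ rfl

/-- a measurable cardinal is a strong limit -/
theorem meas_two_power_lt (hK : #K = κ)
    (hc : ∀ s : Set (Set K), #s < κ → (∀ A ∈ s, A ∈ F) → ⋂₀ s ∈ F)
    (hnp : ∀ x : K, {x} ∉ F) {c : Cardinal.{u}} (h : c < κ) : (2 : Cardinal.{u}) ^ c < κ := by
  by_contra hcon
  rw [not_lt, ← hK] at hcon
  induction c using Cardinal.inductionOn with
  | _ γ =>
  have h2 : #K ≤ #(γ → Bool) := by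
    simpa using hcon
  obtain ⟨e⟩ := h2
  have h3 : ∀ i : γ, ∃ b : Bool, ∀ᶠ x in (F : Filter K), e x i = b := by
    intro i
    rcases F.mem_or_compl_mem {x | e x i = true} with h4 | h4
    · exact ⟨true, h4⟩
    · refine ⟨false, ?_⟩
      filter_upwards [h4] with x hx
      simpa using hx
  choose b hb using h3
  have h5 := Meas_fam hc h (fun (i : γ) (x : K) => e x i = b i) hb
  obtain ⟨x, hx⟩ := F.nonempty_of_mem h5
  refine hnp x (mem_of_superset h5 ?_)
  intro y hy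
  exact e.injective (funext fun i => (hy i).trans (hx i).symm)

variable [LinearOrder K]

/-- a measurable cardinal is regular -/
theorem meas_le_cof (hκ : ℵ₀ < κ) (hI : ∀ x : K, #(Iio x) < κ)
    (hc : ∀ s : Set (Set K), #s < κ → (∀ A ∈ s, A ∈ F) → ⋂₀ s ∈ F)
    (hnp : ∀ x : K, {x} ∉ F) : κ ≤ Order.cof K := by
  rw [Order.le_cof_iff]
  intro s hs
  by_contra hcon
  rw [not_le] at hcon
  have h1 := Meas_fam hc hcon (fun (a : s) (x : K) => x ∉ Iic a.1) (fun a => by
    refine Meas_small hc hnp ?_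
    have h2 : #(Iic a.1) ≤ #(Iio a.1) + 1 := by
      rw [← Iio_insert]
      exact mk_insert_le
    exact h2.trans_lt (add_lt_of_lt hκ.le (hI a.1) (one_lt_aleph0.trans hκ)))
  obtain ⟨x, hx⟩ := F.nonempty_of_mem h1
  obtain ⟨a, ha, hxa⟩ := hs x
  exact hx ⟨a, ha⟩ hxa

/-- the normal ultrafilter -/
theorem exists_normal [WellFoundedLT K] (hκ : ℵ₀ < κ) (hI : ∀ x : K, #(Iio x) < κ)
    (hc : ∀ s : Set (Set K), #s < κ → (∀ A ∈ s, A ∈ F) → ⋂₀ s ∈ F)
    (hnp : ∀ x : K, {x} ∉ F) :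
    ∃ U : Ultrafilter K, (∀ x, ∀ᶠ ν in (U : Filter K), x < ν) ∧
      ∀ P : K → K → Prop, (∀ i, ∀ᶠ ν in (U : Filter K), P i ν) →
        ∀ᶠ ν in (U : Filter K), ∀ i, i < ν → P i ν := by
  have hIic : ∀ a : K, #(Iic a) < κ := by
    intro a
    have h2 : #(Iic a) ≤ #(Iio a) + 1 := by
      rw [← Iio_insert]
      exact mk_insert_le
    exact h2.trans_lt (add_lt_of_lt hκ.le (hI a) (one_lt_aleph0.trans hκ))
  have hwf : WellFounded (fun g f : K → K => ∀ᶠ x in (F : Filter K), g x < f x) := by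
    rw [wellFounded_iff_isEmpty_descending_chain]
    refine ⟨?_⟩
    rintro ⟨f, hf⟩
    have h1 := Meas_fam hc (ι := ULift.{u} ℕ) (by simpa using hκ)
      (fun n x => f (n.down + 1) x < f n.down x) (fun n => hf n.down)
    obtain ⟨x, hx⟩ := F.nonempty_of_mem h1
    have h2 := wellFounded_iff_isEmpty_descending_chain.mp (wellFounded_lt (α := K))
    exact h2.false ⟨fun n => f n x, fun n => hx ⟨n⟩⟩
  obtain ⟨f, hf, hmin⟩ := hwf.has_min {f : K → K | ∀ y, ∀ᶠ x in (F : Filter K), y < f x}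
    ⟨id, fun y => by
      have h1 := Meas_small hc hnp (hIic y)
      filter_upwards [h1] with x hx
      exact not_le.mp hx⟩
  refine ⟨F.map f, fun x => hf x, ?_⟩
  intro P hP
  by_contra hcon
  have hcon' : ∀ᶠ x in (F : Filter K), ∃ i, i < f x ∧ ¬ P i (f x) := by
    have h1 : ∀ᶠ x in (F : Filter K), ¬ ∀ i, i < f x → P i (f x) :=
      Ultrafilter.eventually_not.mpr hcon
    filter_upwards [h1] with x hx
    push Not at hx
    exact hx
  have h3 : ∃ g : K → K, ∀ᶠ x in (F : Filter K), g x < f x ∧ ¬ P (g x) (f x) := by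
    classical
    refine ⟨fun x => if h : ∃ i, i < f x ∧ ¬ P i (f x) then h.choose else x, ?_⟩
    filter_upwards [hcon'] with x hx
    simp only [dif_pos hx]
    exact hx.choose_spec
  obtain ⟨g, hg⟩ := h3
  have h4 : ¬ ∀ y, ∀ᶠ x in (F : Filter K), y < g x := fun h5 =>
    hmin g h5 (hg.mono fun x hx => hx.1)
  rw [not_forall] at h4
  obtain ⟨y, hy⟩ := h4
  have hy' : ∀ᶠ x in (F : Filter K), ¬ y < g x := Ultrafilter.eventually_not.mpr hy
  have h6 : ∃ i, ∀ᶠ x in (F : Filter K), g x = i := by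
    by_contra h7
    rw [not_exists] at h7
    have h8 := Meas_fam hc (hIic y) (fun (i : Iic y) (x : K) => ¬ g x = i.1) (fun i =>
      Ultrafilter.eventually_not.mpr (h7 i.1))
    obtain ⟨x, hx1, hx2⟩ := F.nonempty_of_mem (hy'.and h8)
    exact hx2 ⟨g x, not_lt.mp hx1⟩ rfl
  obtain ⟨i, hi⟩ := h6
  have h9 : ∀ᶠ x in (F : Filter K), P i (f x) := hP i
  obtain ⟨x, ⟨hx1, hx2⟩, hx3⟩ := F.nonempty_of_mem ((hg.and hi).and h9)
  rw [hx2] at hx1
  exact hx1.2 hx3

end

end Pool.MP_8fac41_lc.FR
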