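import Pool.Agent.Lib.MP_8fac41_lc.FR.U.Mit2
import Pool.Agent.Lib.MP_8fac41_lc.FR.U.Meas

/-!
# FRU-Goal: the setting exists
-/

set_option autoImplicit false

universe u

namespace Pool.MP_8fac41_lc.FR

open Cardinal Set Filter

/-- `U` is a normal ultrafilter on the cardinal `δ`: nonprincipal, `δ`-complete and closed under diagonal intersections -/
structure IsNormalUlt (δ : Cardinal.{u}) (U : Ultrafilter δ.ord.ToType) : Prop where
  nonpr : ∀ x, {x} ∉ U
  complete : ∀ s : Set (Set δ.ord.ToType), #s < δ → (∀ A ∈ s, A ∈ U) → ⋂₀ s ∈ U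
  normal : ∀ A : δ.ord.ToType → Set δ.ord.ToType, (∀ i, A i ∈ U) → {y | ∀ i, i < y → y ∈ A i} ∈ U

private theorem UGoal_Iio {δ : Cardinal.{u}} (x : δ.ord.ToType) : #(Iio x) < δ := by
  have h1 : #(Iio x) = (Ordinal.typein (α := δ.ord.ToType) (· < ·) x).card :=
    (Ordinal.card_typein (r := (· < · : δ.ord.ToType → δ.ord.ToType → Prop)) x).symm
  rw [h1]
  refine Cardinal.lt_ord.mp ?_
  have h2 := Ordinal.typein_lt_type (α := δ.ord.ToType) (· < ·) x
  rwa [Ordinal.type_toType] at h2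

private theorem UGoal_compl {δ : Cardinal.{u}} (hreg : δ.IsRegular) {U : Ultrafilter δ.ord.ToType}
    (h1 : ∀ x, ∀ᶠ y in (U : Filter δ.ord.ToType), x < y)
    (h2 : ∀ P : δ.ord.ToType → δ.ord.ToType → Prop, (∀ i, ∀ᶠ y in (U : Filter δ.ord.ToType), P i y) →
      ∀ᶠ y in (U : Filter δ.ord.ToType), ∀ i, i < y → P i y) : Nrm U := by
  refine ⟨h1, h2, ?_⟩
  intro ι P hι hP
  rw [Cardinal.mk_ord_toType] at hι
  have hle : #ι ≤ #(δ.ord.ToType) := by
    rw [Cardinal.mk_ord_toType]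
    exact hι.le
  obtain ⟨e⟩ := hle
  obtain ⟨m, hm⟩ := bddD (D := δ.ord.ToType) (by rw [Cardinal.mk_ord_toType]; exact hreg)
    (fun x => by rw [Cardinal.mk_ord_toType]; exact UGoal_Iio x) (S := range e)
    (by rw [Cardinal.mk_ord_toType]; exact mk_range_le.trans_lt hι)
  have h3 := h2 (fun j y => ∀ i, e i = j → P i y) (fun j => by
    by_cases hj : ∃ i, e i = j
    · obtain ⟨i, rfl⟩ := hj
      filter_upwards [hP i] with y hy i' hi'
      rw [e.injective hi']
      exact hy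
    · exact Eventually.of_forall fun y i hi => absurd ⟨i, hi⟩ hj)
  filter_upwards [h3, h1 m] with y hy hmy i
  exact hy (e i) ((hm _ (mem_range_self i)).trans hmy) i rfl

theorem exists_sett {δ κ : Cardinal.{u}} (hδ : ℵ₀ < δ) (hδκ : δ < κ) {U U' : Ultrafilter δ.ord.ToType}
    (hU : IsNormalUlt δ U) (hU' : IsNormalUlt δ U') (hne : U ≠ U')
    (hκ : ∃ (α : Type u) (F : Ultrafilter α), #α = κ ∧ (∀ x : α, {x} ∉ F) ∧
      ∀ s : Set (Set α), #s < κ → (∀ A ∈ s, A ∈ F) → ⋂₀ s ∈ F) :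
    Nonempty (Sett δ.ord.ToType κ.ord.ToType) := by
  classical
  have hκ0 : ℵ₀ < κ := hδ.trans hδκ
  -- regularity and strong limits
  have hreg : ∀ {c : Cardinal.{u}} (_ : ℵ₀ < c) (F : Ultrafilter c.ord.ToType), (∀ x, {x} ∉ F) →
      (∀ s : Set (Set c.ord.ToType), #s < c → (∀ A ∈ s, A ∈ F) → ⋂₀ s ∈ F) → c.IsRegular := by
    intro c hc F hF1 hF2
    refine ⟨hc.le, ?_⟩
    have h1 := meas_le_cof (F := F) hc (fun x => UGoal_Iio x) hF2 hF1
    rwa [← Ordinal.cof_type, Ordinal.type_toType] at h1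
  have hst : ∀ {c : Cardinal.{u}} (_ : ℵ₀ < c) (F : Ultrafilter c.ord.ToType), (∀ x, {x} ∉ F) →
      (∀ s : Set (Set c.ord.ToType), #s < c → (∀ A ∈ s, A ∈ F) → ⋂₀ s ∈ F) → c.IsStrongLimit := by
    intro c hc F hF1 hF2
    refine ⟨(Cardinal.aleph0_pos.trans hc).ne', fun {d} hd => ?_⟩
    exact meas_two_power_lt (F := F) (Cardinal.mk_ord_toType c) hF2 hF1 hd
  have hnrm : ∀ V : Ultrafilter δ.ord.ToType, IsNormalUlt δ V → Nrm V := by
    intro V hV
    have hr := hreg hδ V hV.nonpr hV.complete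
    refine UGoal_compl hr ?_ (fun P hP => hV.normal (fun i => {y | P i y}) hP)
    intro x
    have h1 : #(Iic x) < δ := by
      have h2 : #(Iic x) ≤ #(Iio x) + 1 := by
        rw [← Iio_insert]
        exact mk_insert_le
      exact h2.trans_lt (add_lt_of_lt hδ.le (UGoal_Iio x) (one_lt_aleph0.trans hδ))
    have h2 := hV.complete (range fun i : Iic x => {i.1}ᶜ) (mk_range_le.trans_lt h1) (by
      rintro A ⟨i, rfl⟩
      exact Ultrafilter.compl_mem_iff_notMem.mpr (hV.nonpr i.1))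
    refine mem_of_superset h2 ?_
    intro y hy
    by_contra hxy
    have h3 : y ≤ x := le_of_not_gt fun h => hxy h
    exact hy _ ⟨⟨y, h3⟩, rfl⟩ rfl
  -- the ultrafilter on `κ`
  obtain ⟨α, F, hα, hnp, hc⟩ := hκ
  obtain ⟨e⟩ : Nonempty (α ≃ κ.ord.ToType) := Cardinal.eq.mp (by rw [hα, Cardinal.mk_ord_toType])
  have hnp' : ∀ x : κ.ord.ToType, {x} ∉ F.map e := by
    intro x hx
    rw [Ultrafilter.mem_map] at hx
    refine hnp (e.symm x) (mem_of_superset hx ?_)
    intro y hy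
    have h1 : e y = x := hy
    rw [mem_singleton_iff, ← h1, Equiv.symm_apply_apply]
  have hc' : ∀ s : Set (Set κ.ord.ToType), #s < κ → (∀ A ∈ s, A ∈ F.map e) → ⋂₀ s ∈ F.map e := by
    intro s hs hA
    rw [Ultrafilter.mem_map]
    have h1 := hc ((fun A => e ⁻¹' A) '' s) (Cardinal.mk_image_le.trans_lt hs) (by
      rintro B ⟨A, hA1, rfl⟩
      exact hA A hA1)
    refine mem_of_superset h1 ?_
    intro x hx A hA1
    exact hx _ ⟨A, hA1, rfl⟩
  obtain ⟨W, hW1, hW2⟩ := exists_normal (F := F.map e) hκ0 (fun x => UGoal_Iio x) hc' hnp'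
  have hrX := hreg hκ0 (F.map e) hnp' hc'
  have hsX := hst hκ0 (F.map e) hnp' hc'
  have hW : Nrm W := UGoal_compl hrX hW1 hW2
  have hrD := hreg hδ U hU.nonpr hU.complete
  have hsD := hst hδ U hU.nonpr hU.complete
  have hirr : ∀ V : Ultrafilter δ.ord.ToType, Nrm V → ¬ Mit V V := fun V hV =>
    mit_irrefl (by rw [Cardinal.mk_ord_toType]; exact hδ) (by rw [Cardinal.mk_ord_toType]; exact hrD)
      (by rw [Cardinal.mk_ord_toType]; exact hsD) (fun x => by rw [Cardinal.mk_ord_toType]; exact UGoal_Iio x) hV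
  have key : ∃ V V' : Ultrafilter δ.ord.ToType, Nrm V ∧ Nrm V' ∧ V ≠ V' ∧ ¬ Mit V' V := by
    by_cases h : Mit U' U
    · exact ⟨U', U, hnrm U' hU', hnrm U hU, hne.symm, fun h' => hirr U (hnrm U hU) (mit_trans h' h)⟩
    · exact ⟨U, U', hnrm U hU, hnrm U' hU', hne, h⟩
  obtain ⟨V, V', hV, hV', hVV', hm⟩ := key
  exact ⟨{ U0 := V
           U1 := V'
           W := W
           n0 := hV
           n1 := hV'
           nW := hW
           ne := hVV'
           mit := hm
           infD := by rw [Cardinal.mk_ord_toType]; exact hδ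
           DX := by rw [Cardinal.mk_ord_toType, Cardinal.mk_ord_toType]; exact hδκ
           regD := by rw [Cardinal.mk_ord_toType]; exact hrD
           stD := by rw [Cardinal.mk_ord_toType]; exact hsD
           regX := by rw [Cardinal.mk_ord_toType]; exact hrX
           stX := by rw [Cardinal.mk_ord_toType]; exact hsX
           smD := fun x => by rw [Cardinal.mk_ord_toType]; exact UGoal_Iio x
           smX := fun x => by rw [Cardinal.mk_ord_toType]; exact UGoal_Iio x }⟩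

end Pool.MP_8fac41_lc.FR
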