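import Pool.Agent.Lib.MP_8fac41_lc.FR.U.RepBasic

/-!
# Fixed points (module FR-U-RepFix)

For `W`-many `a` the constant function with value `a` represents `a`.

Proof. By `Rep.exists_const` choose `j : K → K` with `a ≤ j a`, `{x | rep (j a) x = a} ∈ U`. For `W`-many `a`:
(1) `j b < a` for all `b < a` (`NUF.diag hW` for the sets `{a | j b < a}`);
(2) every `f : D → K` with `f x < a` for all `x` is bounded by some `b < a`: otherwise for `W`-many `a` there are `f a : D → K` with
values below `a` and not bounded below `a`; for every `x` the function `a ↦ f a x` is regressive, so equal to some `c x` for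
`W`-many `a` (`NUF.press`); by `NUF.inter hW` (`#D < #K`) for `W`-many `a` for all `x` `f a x = c x`; `c` is bounded by some `b`
(`NUF.bdd_of_small hW (Set.range c)`); take such an `a > b`: contradiction.
(3) `a` is not the least element.
Let `a` satisfy (1)-(3). `a ≤ j a`. Suppose `a < j a`: then `{x | rep a x < rep (j a) x = a} ∈ U`, so `rep a` is equal mod `U` to a function with values `< a`,
bounded by some `b < a` by (2). So `{x | rep a x ≤ b} ∈ U`, `b = rep (j b) x` for `U`-many `x`, so (`Rep.lt_iff`) not `j b < a`, contradicting (1).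
So `j a = a`.
-/

universe u

namespace Pool.Agent.Lib.MP_8fac41_lc.FR

open Cardinal

variable {D K : Type u} [LinearOrder K] [WellFoundedLT K] {U : Ultrafilter D} {rep : K → D → K}

private theorem repFix_bdd {W : Ultrafilter K} (hW : NUF W) (hDK : #D < #K) :
    {a | ∀ f : D → K, (∀ x, f x < a) → ∃ b < a, ∀ x, f x ≤ b} ∈ W := by
  classical
  by_contra hneg
  have hS : {a | ∃ f : D → K, (∀ x, f x < a) ∧ ∀ b < a, ∃ x, b < f x} ∈ W := by
    refine Filter.mem_of_superset (uf_or hneg) ?_
    intro a ha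
    simp only [Set.mem_compl_iff, Set.mem_ofPred_eq, not_forall] at ha
    obtain ⟨f, hf, hb⟩ := ha
    refine ⟨f, hf, fun b hba => ?_⟩
    by_contra hx
    push Not at hx
    exact hb ⟨b, hba, hx⟩
  obtain ⟨a₀, ha₀⟩ := Ultrafilter.nonempty_of_mem hS
  have hch : ∀ a : K, ∃ f : D → K, a ∈ {a | ∃ f : D → K, (∀ x, f x < a) ∧ ∀ b < a, ∃ x, b < f x} →
      (∀ x, f x < a) ∧ ∀ b < a, ∃ x, b < f x := by
    intro a
    by_cases ha : a ∈ {a | ∃ f : D → K, (∀ x, f x < a) ∧ ∀ b < a, ∃ x, b < f x}
    · obtain ⟨f, hf⟩ := ha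
      exact ⟨f, fun _ => hf⟩
    · exact ⟨fun _ => a, fun h => absurd h ha⟩
  choose f hf using hch
  have hc : ∀ x : D, ∃ c, {a | f a x = c} ∈ W := by
    intro x
    refine hW.press (fun a => f a x) ?_
    refine Filter.mem_of_superset hS ?_
    intro a ha
    exact (hf a ha).1 x
  choose c hc using hc
  have hall : {a | ∀ x, a ∈ {a | f a x = c x}} ∈ W := hW.inter hDK (fun x => {a | f a x = c x}) hc
  obtain ⟨b, hb⟩ := hW.bdd_of_small (Set.range c) (lt_of_le_of_lt Cardinal.mk_range_le hDK)
  obtain ⟨a, ⟨ha1, ha2⟩, ha3⟩ := Ultrafilter.nonempty_of_mem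
    (Filter.inter_mem (Filter.inter_mem hS hall) (hW.tail b))
  obtain ⟨x, hx⟩ := (hf a ha1).2 b ha3
  have h1 : f a x = c x := ha2 x
  have h2 : c x < b := hb (c x) ⟨x, rfl⟩
  rw [h1] at hx
  exact lt_asymm hx h2

theorem Rep.fix (h : Rep U rep) {W : Ultrafilter K} (hW : NUF W) (hDK : #D < #K) :
    {a | {x | rep a x = a} ∈ U} ∈ W := by
  classical
  have hj : ∀ a : K, ∃ b, a ≤ b ∧ {x | rep b x = a} ∈ U := fun a => h.exists_const a
  choose j hj1 hj2 using hj
  have h1 : {a | ∀ b < a, a ∈ {a | j b < a}} ∈ W := hW.diag (fun b => {a | j b < a}) (fun b => hW.tail (j b))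
  refine Filter.mem_of_superset (Filter.inter_mem h1 (repFix_bdd (D := D) hW hDK)) ?_
  rintro a ⟨ha1, ha2⟩
  have key : ¬ a < j a := by
    intro hlt
    have e1 : {x | rep a x < a} ∈ U := by
      refine Filter.mem_of_superset (Filter.inter_mem (h.lt a (j a) hlt) (hj2 a)) ?_
      rintro x ⟨hx1, hx2⟩
      have hx1' : rep a x < rep (j a) x := hx1
      have hx2' : rep (j a) x = a := hx2
      rw [hx2'] at hx1'
      exact hx1'
    obtain ⟨x₀, hx₀⟩ := Ultrafilter.nonempty_of_mem e1
    obtain ⟨b, hba, hb⟩ := ha2 (fun x => if rep a x < a then rep a x else rep a x₀) (by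
      intro x
      by_cases hx : rep a x < a
      · simp only [hx, if_true]
      · simp only [hx, if_false]
        exact hx₀)
    have hjb : j b < a := ha1 b hba
    obtain ⟨x, ⟨⟨hx1, hx2⟩, hx3⟩⟩ := Ultrafilter.nonempty_of_mem
      (Filter.inter_mem (Filter.inter_mem e1 (hj2 b)) (h.lt (j b) a hjb))
    have hx1' : rep a x < a := hx1
    have hx2' : rep (j b) x = b := hx2
    have hx3' : rep (j b) x < rep a x := hx3
    have hx4 := hb x
    simp only [hx1', if_true] at hx4
    rw [hx2'] at hx3'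
    exact absurd hx3' (not_lt.2 hx4)
  have e : j a = a := le_antisymm (not_lt.1 key) (hj1 a)
  have := hj2 a
  rw [e] at this
  exact this

end Pool.Agent.Lib.MP_8fac41_lc.FR
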