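import Pool.Agent.Lib.MP_8fac41_lc.FR.P.Defs

/-!
# FRU-Mit1: the Mitchell order is transitive, and rank functions

`mit_trans`: if `w`, `v` witness `Mit U U'`, `Mit U' U''`, then `ζ ↦ {Y | {ξ | ξ < ζ ∧ Y ∩ Iio ξ ∈ w ξ} ∈ v ζ}` witnesses `Mit U U''`
(`(A ∩ Iio ζ) ∩ Iio ξ = A ∩ Iio ξ` for `ξ < ζ`; use it for `A` and then for `{ξ | A ∩ Iio ξ ∈ w ξ}`).
`exists_rank`: wellfounded recursion: `ρ a` = the least `d` with `∀ b, r b a → ρ b < d` (exists because `{ρ b}` has size less than `#D`, and a set of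
size less than `#D` is bounded, as in `P/Basic.lean`); the range of `ρ` is bounded by some `o`.
-/

set_option autoImplicit false

universe u

namespace Pool.MP_8fac41_lc.FR

open Cardinal Set Filter

variable {D : Type u} [LinearOrder D] [WellFoundedLT D]

theorem mit_trans {U U' U'' : Ultrafilter D} (h : Mit U U') (h' : Mit U' U'') : Mit U U'' := by
  obtain ⟨w, hw⟩ := h
  obtain ⟨v, hv⟩ := h'
  refine ⟨fun ζ => {Y | {ξ | ξ < ζ ∧ Y ∩ Iio ξ ∈ w ξ} ∈ v ζ}, fun A => ?_⟩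
  rw [hw A, hv]
  have e : {ζ | {ξ | A ∩ Iio ξ ∈ w ξ} ∩ Iio ζ ∈ v ζ} =
      {ζ | A ∩ Iio ζ ∈ {Y | {ξ | ξ < ζ ∧ Y ∩ Iio ξ ∈ w ξ} ∈ v ζ}} := by
    ext ζ
    simp only [mem_ofPred_eq]
    have e1 : {ξ | A ∩ Iio ξ ∈ w ξ} ∩ Iio ζ = {ξ | ξ < ζ ∧ A ∩ Iio ζ ∩ Iio ξ ∈ w ξ} := by
      ext ξ
      simp only [mem_inter_iff, mem_ofPred_eq, mem_Iio]
      constructor
      · rintro ⟨h1, h2⟩
        refine ⟨h2, ?_⟩
        have e2 : A ∩ Iio ζ ∩ Iio ξ = A ∩ Iio ξ := by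
          ext x
          simp only [mem_inter_iff, mem_Iio]
          constructor
          · rintro ⟨⟨h3, -⟩, h4⟩
            exact ⟨h3, h4⟩
          · rintro ⟨h3, h4⟩
            exact ⟨⟨h3, h4.trans h2⟩, h4⟩
        rw [e2]
        exact h1
      · rintro ⟨h2, h1⟩
        refine ⟨?_, h2⟩
        have e2 : A ∩ Iio ζ ∩ Iio ξ = A ∩ Iio ξ := by
          ext x
          simp only [mem_inter_iff, mem_Iio]
          constructor
          · rintro ⟨⟨h3, -⟩, h4⟩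
            exact ⟨h3, h4⟩
          · rintro ⟨h3, h4⟩
            exact ⟨⟨h3, h4.trans h2⟩, h4⟩
        rw [e2] at h1
        exact h1
    rw [e1]
  rw [e]

theorem bddD (hreg : (#D).IsRegular) (hsm : ∀ x : D, #(Iio x) < #D) {S : Set D} (h : #S < #D) :
    ∃ m : D, ∀ x ∈ S, x < m := by
  by_contra hcon
  push Not at hcon
  have h1 : (⋃ x ∈ S, Iic x) = (univ : Set D) := by
    apply eq_univ_of_forall
    intro m
    obtain ⟨x, hx, hxm⟩ := hcon m
    exact mem_biUnion hx hxm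
  have h2 : ∀ x : D, #(Iic x) < #D := by
    intro x
    have h3 : Iic x = insert x (Iio x) := by
      ext y
      simp only [mem_Iic, mem_insert_iff, mem_Iio]
      exact le_iff_eq_or_lt
    rw [h3]
    calc #(insert x (Iio x) : Set D) ≤ #(Iio x) + 1 := mk_insert_le
      _ < #D := add_lt_of_lt hreg.aleph0_le (hsm x) (one_lt_aleph0.trans_le hreg.aleph0_le)
  have h4 : #(⋃ x ∈ S, Iic x : Set D) < #D := by
    rw [card_biUnion_lt_iff_forall_of_isRegular hreg h]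
    intro x _
    exact h2 x
  rw [h1, mk_univ] at h4
  exact lt_irrefl _ h4

/-- the strict bound as a function -/
private theorem exists_rank_fun (hreg : (#D).IsRegular) (hsm : ∀ x : D, #(Iio x) < #D) {A : Type u}
    (hA : #A < #D) {r : A → A → Prop} (hr : WellFounded r) : ∃ ρ : A → D, ∀ a b, r a b → ρ a < ρ b := by
  have hb : ∀ (b : A) (f : (a : A) → r a b → D), ∃ m : D, ∀ (a : A) (h : r a b), f a h < m := by
    intro b f
    have h1 : #(range (fun a : {a // r a b} => f a.1 a.2)) < #D :=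
      (mk_range_le.trans (mk_subtype_le _)).trans_lt hA
    obtain ⟨m, hm⟩ := bddD hreg hsm h1
    exact ⟨m, fun a h => hm _ ⟨⟨a, h⟩, rfl⟩⟩
  choose g hg using hb
  refine ⟨hr.fix g, fun a b hab => ?_⟩
  rw [hr.fix_eq g b]
  exact hg b (fun a _ => hr.fix g a) a hab

theorem exists_rank (hreg : (#D).IsRegular) (hsm : ∀ x : D, #(Iio x) < #D) {A : Type u} (hA : #A < #D)
    {r : A → A → Prop} (hr : WellFounded r) : ∃ (ρ : A → D) (o : D), (∀ a b, r a b → ρ a < ρ b) ∧ ∀ a, ρ a < o := by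
  obtain ⟨ρ, hρ⟩ := exists_rank_fun hreg hsm hA hr
  have h1 : #(range ρ) < #D := mk_range_le.trans_lt hA
  obtain ⟨o, ho⟩ := bddD hreg hsm h1
  exact ⟨ρ, o, hρ, fun a => ho _ ⟨a, rfl⟩⟩

end Pool.MP_8fac41_lc.FR
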