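import Pool.Agent.Lib.MP_8fac41_lc.FR.U.Mit1

/-!
# FRU-Mit2: the Mitchell order is irreflexive

Let `w` witness `Mit U U`. For `ξ : D` let `F ξ = (Iio ξ → Iio ξ)`, `lt ξ f g` iff `{η | ∃ h : η < ξ, f ⟨η, h⟩ < g ⟨η, h⟩} ∈ w ξ`.
* (a) `lt ξ` is wellfounded for `U`-almost all `ξ`: otherwise for `U`-almost all `ξ` there is a sequence `h ξ n` with `lt ξ (h ξ (n+1)) (h ξ n)`. For all `n`, `η` the function
  `ξ ↦ h ξ n η < ξ` is constant `= g n η` on a set in `U` (normality, ultrafilter; `regressive` lemma), so for almost all `ξ`, for all `η < ξ` and `n`: `h ξ n η = g n η` (`Nrm.normal`, `Nrm.compl` for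
  `ULift ℕ`). So `{η | η < ξ ∧ g (n+1) η < g n η} ∈ w ξ`, i.e. `{η | g (n+1) η < g n η} ∈ U` for all `n`; by `Nrm.compl` there is `η` in all of them: an infinite descending sequence.
* (b) For these `ξ` let `ρ ξ`, `o ξ` be given by `exists_rank` (`#(F ξ) < #D` by `hst`). For `f : D → D` let `f^ ξ = ρ ξ (f restricted to Iio ξ)` if `f` maps `Iio ξ` to `Iio ξ`,
  (anything otherwise); almost all `ξ` are closed under `f` (`tail`, `normal`).
* (c) If `{η | f η < g η} ∈ U` then `{ξ | f^ ξ < g^ ξ} ∈ U` (because `{η | f η < g η} ∩ Iio ξ ∈ w ξ` for almost all `ξ`).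
* (d) `{ξ | o^ ξ < o ξ} ∈ U`. Let `f 0 = o`, `f (n+1) = (f n)^`: `{ξ | f (n+1) ξ < f n ξ} ∈ U` by induction from (c), contradiction as in (a).
-/

set_option autoImplicit false

universe u

namespace Pool.MP_8fac41_lc.FR

open Cardinal Set Filter

variable {D : Type u} [LinearOrder D] [WellFoundedLT D]

/-- regressive functions are constant -/
theorem regr {U : Ultrafilter D} (hU : Nrm U) {f : D → D} (h : ∀ᶠ ξ in (U : Filter D), f ξ < ξ) :
    ∃ i, ∀ᶠ ξ in (U : Filter D), f ξ = i := by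
  by_contra hcon
  have hcon : ∀ i, ¬ ∀ᶠ ξ in (U : Filter D), f ξ = i := fun i hi => hcon ⟨i, hi⟩
  have h2 := hU.normal (fun i y => f y ≠ i) fun i => Ultrafilter.eventually_not.2 (hcon i)
  obtain ⟨ξ, h3, h4⟩ := (h2.and h).exists
  exact h3 (f ξ) h4 rfl

/-- no descending sequence modulo a normal ultrafilter -/
private theorem no_desc (hinf : ℵ₀ < #D) {U : Ultrafilter D} (hU : Nrm U) (g : ℕ → D → D)
    (h : ∀ n, ∀ᶠ η in (U : Filter D), g (n + 1) η < g n η) : False := by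
  have h1 := hU.compl (ULift.{u} ℕ) (fun n η => g (n.down + 1) η < g n.down η)
    (by rw [Cardinal.mk_uLift, Cardinal.mk_nat, Cardinal.lift_aleph0]; exact hinf) (fun n => h n.down)
  obtain ⟨η, hη⟩ := h1.exists
  have hwf : WellFounded ((· < ·) : D → D → Prop) := wellFounded_lt
  have := RelEmbedding.natGT (r := ((· < ·) : D → D → Prop)) (fun n => g n η)
    (fun n => hη ⟨n⟩)
  exact (RelEmbedding.wellFounded_iff_isEmpty.1 hwf).false this

/-- the functions on the initial segment -/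
private abbrev Fs (ξ : D) : Type u := Iio ξ → Iio ξ

private def ltw (w : D → Set (Set D)) (ξ : D) (f g : Fs ξ) : Prop :=
  {η | ∃ h : η ∈ Iio ξ, f ⟨η, h⟩ < g ⟨η, h⟩} ∈ w ξ

open Classical in
private noncomputable def rs (f : D → D) (ξ : D) : Fs ξ :=
  fun η => if h : f η < ξ then ⟨f η, h⟩ else η

private theorem card_Fs (hinf : ℵ₀ < #D) (hst : (#D).IsStrongLimit) (hsm : ∀ x : D, #(Iio x) < #D)
    (ξ : D) : #(Fs ξ) < #D := by
  have h1 : #(Fs ξ) = #(Iio ξ) ^ #(Iio ξ) := by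
    rw [Cardinal.power_def]
  rw [h1]
  rcases lt_or_ge #(Iio ξ) ℵ₀ with h | h
  · exact (Cardinal.power_lt_aleph0 h h).trans hinf
  · rw [Cardinal.power_self_eq h]
    exact hst.isStrongPrelimit (hsm ξ)

private theorem wf_ae (hinf : ℵ₀ < #D) {U : Ultrafilter D} (hU : Nrm U) {w : D → Set (Set D)}
    (hw : ∀ A : Set D, A ∈ U ↔ {ξ | A ∩ Iio ξ ∈ w ξ} ∈ U) :
    ∀ᶠ ξ in (U : Filter D), WellFounded (ltw w ξ) := by
  by_contra hcon
  rw [← Ultrafilter.eventually_not] at hcon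
  have h1 : ∀ ξ, ∃ h : ℕ → Fs ξ, ¬ WellFounded (ltw w ξ) → ∀ n, ltw w ξ (h (n + 1)) (h n) := by
    intro ξ
    by_cases hwf : WellFounded (ltw w ξ)
    · exact ⟨fun _ => id, fun h => absurd hwf h⟩
    · rw [wellFounded_iff_isEmpty_descending_chain] at hwf
      rw [not_isEmpty_iff] at hwf
      obtain ⟨⟨h, hh⟩⟩ := hwf
      exact ⟨h, fun _ => hh⟩
  choose H hH using h1
  have h2 : ∀ (n : ℕ) (η : D), ∃ i, ∀ᶠ ξ in (U : Filter D), ∀ hη : η ∈ Iio ξ, (H ξ n ⟨η, hη⟩ : D) = i := by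
    intro n η
    classical
    obtain ⟨i, hi⟩ := regr hU (f := fun ξ => if hη : η ∈ Iio ξ then (H ξ n ⟨η, hη⟩ : D) else η) (by
      filter_upwards [hU.tail η] with ξ hξ
      rw [dif_pos (show η ∈ Iio ξ from hξ)]
      exact (H ξ n ⟨η, hξ⟩).2)
    refine ⟨i, ?_⟩
    filter_upwards [hi] with ξ hξ hη
    rw [dif_pos hη] at hξ
    exact hξ
  choose g hg using h2
  have h3 : ∀ n, ∀ᶠ ξ in (U : Filter D), ∀ η, η < ξ → ∀ hη : η ∈ Iio ξ, (H ξ n ⟨η, hη⟩ : D) = g n η :=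
    fun n => hU.normal (fun η ξ => ∀ hη : η ∈ Iio ξ, (H ξ n ⟨η, hη⟩ : D) = g n η) (hg n)
  refine no_desc hinf hU g fun n => ?_
  change {η | g (n + 1) η < g n η} ∈ U
  rw [hw]
  filter_upwards [h3 n, h3 (n + 1), hcon] with ξ e1 e2 e3
  have := hH ξ e3 n
  unfold ltw at this
  have heq : {η | ∃ h : η ∈ Iio ξ, H ξ (n + 1) ⟨η, h⟩ < H ξ n ⟨η, h⟩}
      = {η | g (n + 1) η < g n η} ∩ Iio ξ := by
    ext η
    constructor
    · rintro ⟨h, h'⟩
      refine ⟨?_, h⟩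
      change g (n + 1) η < g n η
      rw [← e1 η h h, ← e2 η h h]
      exact h'
    · rintro ⟨h', h⟩
      refine ⟨h, ?_⟩
      change g (n + 1) η < g n η at h'
      rw [← e1 η h h, ← e2 η h h] at h'
      exact h'
  rw [heq] at this
  exact this

theorem mit_irrefl (hinf : ℵ₀ < #D) (hreg : (#D).IsRegular) (hst : (#D).IsStrongLimit) (hsm : ∀ x : D, #(Iio x) < #D)
    {U : Ultrafilter D} (hU : Nrm U) : ¬ Mit U U := by
  rintro ⟨w, hw⟩
  have hwf := wf_ae hinf hU hw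
  have hne : Nonempty D := by
    rw [← Cardinal.mk_ne_zero_iff]
    intro h0
    rw [h0] at hinf
    exact absurd hinf (not_lt.2 (zero_le))
  have h1 : ∀ ξ, ∃ (ρ : Fs ξ → D) (o : D), WellFounded (ltw w ξ) →
      ((∀ a b, ltw w ξ a b → ρ a < ρ b) ∧ ∀ a, ρ a < o) := by
    intro ξ
    by_cases h : WellFounded (ltw w ξ)
    · obtain ⟨ρ, o, h1, h2⟩ := exists_rank hreg hsm (card_Fs hinf hst hsm ξ) h
      exact ⟨ρ, o, fun _ => ⟨h1, h2⟩⟩
    · exact ⟨fun _ => hne.some, hne.some, fun h' => absurd h' h⟩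
  choose ρ o hρ using h1
  have hcl : ∀ f : D → D, ∀ᶠ ξ in (U : Filter D), ∀ η, η < ξ → f η < ξ :=
    fun f => hU.normal (fun η ξ => f η < ξ) (fun η => hU.tail (f η))
  have hc : ∀ f g : D → D, (∀ᶠ η in (U : Filter D), f η < g η) →
      ∀ᶠ ξ in (U : Filter D), ρ ξ (rs f ξ) < ρ ξ (rs g ξ) := by
    intro f g hfg
    have hfg' : {η | f η < g η} ∈ U := hfg
    rw [hw] at hfg'
    have hfg'' : ∀ᶠ ξ in (U : Filter D), {η | f η < g η} ∩ Iio ξ ∈ w ξ := hfg'
    filter_upwards [hwf, hcl f, hcl g, hfg''] with ξ e1 e2 e3 e4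
    apply (hρ ξ e1).1
    unfold ltw
    have heq : {η | ∃ h : η ∈ Iio ξ, rs f ξ ⟨η, h⟩ < rs g ξ ⟨η, h⟩}
        = {η | f η < g η} ∩ Iio ξ := by
      ext η
      constructor
      · rintro ⟨h, h'⟩
        refine ⟨?_, h⟩
        unfold rs at h'
        rw [dif_pos (e2 η h), dif_pos (e3 η h)] at h'
        exact h'
      · rintro ⟨h', h⟩
        refine ⟨h, ?_⟩
        unfold rs
        rw [dif_pos (e2 η h), dif_pos (e3 η h)]
        exact h'
    rw [heq]
    exact e4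
  let f : ℕ → D → D := fun n => Nat.rec o (fun _ g ξ => ρ ξ (rs g ξ)) n
  refine no_desc hinf hU f fun n => ?_
  induction n with
  | zero =>
    filter_upwards [hwf] with ξ e1
    exact (hρ ξ e1).2 _
  | succ n ih => exact hc _ _ ih

end Pool.MP_8fac41_lc.FR
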