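import Pool.Agent.Lib.MP_8fac41_lc.FR.U.Defs

/-!
# Completeness (module FR-U-Small)

`mk_Iio_lt`: otherwise some `g : A → Set.Iio a` is injective; its inverse (extended arbitrarily) `f : A → A`
maps `Set.Iio a` onto `A`. Apply `NUF.bdd` to `X b = {x | x ≠ f b}` (`NUF.ne`): the intersection is empty, but
the elements of an ultrafilter are nonempty (`Ultrafilter.nonempty_of_mem`).
`inter`: `A` is well ordered and its proper initial segments have fewer than `#A` elements, so `ι` with
`#ι < #A` has an injection `e : ι → A` into a proper initial segment `Set.Iio a` (take `a` = the element of `A`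
of rank `(#ι).ord`, `Ordinal.enum`, `Ordinal.card_typein`; or: if no initial segment has `#ι` elements or more, then
the least upper bound of ranks is at most `(#ι).ord`, so `#A ≤ #ι`). Then use `NUF.bdd` with
`X b = ⋂ i with e i = b, X i`.
`bdd_of_small`: `inter` for the family `{x | s < x}`, `s ∈ S`, and nonemptiness.
`const_small`: otherwise all `{a | f a ≠ z}` are in `U`; by `inter` (if `#Z < #A`) the empty set is in `U`.
-/

universe u

namespace Pool.Agent.Lib.MP_8fac41_lc.FR

open Cardinal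

variable {A : Type u} [LinearOrder A] [WellFoundedLT A] {U : Ultrafilter A}

theorem NUF.mk_Iio_lt (hU : NUF U) (a : A) : #(Set.Iio a) < #A := by
  by_contra h
  rw [not_lt] at h
  obtain ⟨g⟩ := (Cardinal.le_def _ _).1 h
  have h1 : ∀ b < a, {x : A | ((g x : Set.Iio a) : A) ≠ b} ∈ U := by
    intro b _
    by_cases h2 : ∃ x0 : A, ((g x0 : Set.Iio a) : A) = b
    · obtain ⟨x0, hx0⟩ := h2
      refine Filter.mem_of_superset (hU.ne x0) ?_
      intro x hx h3
      apply hx
      apply g.injective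
      apply Subtype.ext
      rw [h3, hx0]
    · have h3 : {x : A | ((g x : Set.Iio a) : A) ≠ b} = Set.univ := by
        ext x
        simp only [Set.mem_ofPred_eq, Set.mem_univ, iff_true]
        intro h4
        exact h2 ⟨x, h4⟩
      rw [h3]
      exact Filter.univ_mem
  have h2 := hU.bdd a _ h1
  obtain ⟨x, hx⟩ := Ultrafilter.nonempty_of_mem h2
  exact hx (g x) (g x).2 rfl

private theorem exists_equiv {ι : Type u} (hι : #ι < #A) : ∃ a : A, Nonempty (ι ≃ Set.Iio a) := by
  have h1 : (#ι).ord < Ordinal.type (fun x y : A => x < y) := by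
    by_contra h2
    rw [not_lt] at h2
    have h3 := Ordinal.card_le_card h2
    rw [Ordinal.card_type, Cardinal.card_ord] at h3
    exact absurd hι (not_lt.2 h3)
  refine ⟨Ordinal.enum (fun x y : A => x < y) ⟨(#ι).ord, h1⟩, ?_⟩
  have h2 := Ordinal.card_typein (r := fun x y : A => x < y)
    (Ordinal.enum (fun x y : A => x < y) ⟨(#ι).ord, h1⟩)
  rw [Ordinal.typein_enum, Cardinal.card_ord] at h2
  exact Cardinal.eq.1 (show #ι = #{ y // y < (Ordinal.enum fun x y : A => x < y) ⟨(#ι).ord, h1⟩ } from h2)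

theorem NUF.inter (hU : NUF U) {ι : Type u} (hι : #ι < #A) (X : ι → Set A) (hX : ∀ i, X i ∈ U) :
    {x | ∀ i, x ∈ X i} ∈ U := by
  obtain ⟨a, ⟨e⟩⟩ := exists_equiv (A := A) hι
  have h1 : ∀ b < a, {x : A | ∀ i, ((e i : Set.Iio a) : A) = b → x ∈ X i} ∈ U := by
    intro b hb
    refine Filter.mem_of_superset (hX (e.symm ⟨b, hb⟩)) ?_
    intro x hx i hi
    have h2 : i = e.symm ⟨b, hb⟩ := by
      rw [Equiv.eq_symm_apply]
      exact Subtype.ext hi
    rw [h2]
    exact hx
  refine Filter.mem_of_superset (hU.bdd a _ h1) ?_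
  intro x hx i
  exact hx (e i) (e i).2 i rfl

theorem NUF.bdd_of_small (hU : NUF U) (S : Set A) (hS : #S < #A) : ∃ b, ∀ a ∈ S, a < b := by
  have h1 := hU.inter hS (fun s : S => {x | (s : A) < x}) (fun s => hU.tail s)
  obtain ⟨b, hb⟩ := Ultrafilter.nonempty_of_mem h1
  exact ⟨b, fun a ha => hb ⟨a, ha⟩⟩

theorem NUF.const_small (hU : NUF U) {Z : Type u} (hZ : #Z < #A) (f : A → Z) : ∃ z, {a | f a = z} ∈ U := by
  by_contra h
  have h1 : ∀ z, {a | f a ≠ z} ∈ U := by
    intro z
    have h2 : {a | f a = z} ∉ U := fun h3 => h ⟨z, h3⟩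
    exact uf_or h2
  have h2 := hU.inter hZ _ h1
  obtain ⟨x, hx⟩ := Ultrafilter.nonempty_of_mem h2
  exact hx (f x) rfl

end Pool.Agent.Lib.MP_8fac41_lc.FR
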