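import Pool.Agent.Lib.MP_8fac41_lc.FR.U.Small

/-!
# Uncountability (module FR-U-Strong1)

`limit_point`: otherwise every element which is not the least one has an immediate predecessor; let `f x < x` be the
predecessor (and `f ⊥ = ⊥`). `NUF.press`: `f x = c` for `U`-many `x`; but then `U`-many `x` are equal to the
successor of `c` (if `a < x` and there is nothing between, `x` is determined by `a`), contradicting `NUF.ne`.
`aleph0_lt`: with `a` from `limit_point`, `Set.Iio a` is nonempty without greatest element, hence infinite: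
`ℵ₀ ≤ #(Set.Iio a) < #A` (`NUF.mk_Iio_lt`).
`ctbl`: `NUF.inter` for `ι = ULift ℕ`.
-/

universe u

namespace Pool.Agent.Lib.MP_8fac41_lc.FR

open Cardinal

variable {A : Type u} [LinearOrder A] [WellFoundedLT A] {U : Ultrafilter A}

theorem NUF.limit_point (hU : NUF U) : ∃ a : A, (∃ b, b < a) ∧ ∀ b < a, ∃ c, b < c ∧ c < a := by
  classical
  by_contra h
  have h1 : ∀ x : A, (∃ b, b < x) → ∃ y, y < x ∧ ∀ c, y < c → ¬ c < x := by
    intro x hx
    by_contra h2
    apply h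
    refine ⟨x, hx, ?_⟩
    intro b hb
    by_contra h3
    apply h2
    refine ⟨b, hb, ?_⟩
    intro c hc hcx
    exact h3 ⟨c, hc, hcx⟩
  let f : A → A := fun x => if hx : ∃ b, b < x then (h1 x hx).choose else x
  have hf : ∀ x : A, (∃ b, b < x) → f x < x ∧ ∀ c, f x < c → ¬ c < x := by
    intro x hx
    have h2 : f x = (h1 x hx).choose := dif_pos hx
    rw [h2]
    exact (h1 x hx).choose_spec
  obtain ⟨a0, _⟩ := Ultrafilter.nonempty_of_mem (Filter.univ_mem (f := (U : Filter A)))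
  have hreg : {x | f x < x} ∈ U := by
    refine Filter.mem_of_superset (hU.tail a0) ?_
    intro x hx
    exact (hf x ⟨a0, hx⟩).1
  obtain ⟨c, hc⟩ := hU.press f hreg
  obtain ⟨x, ⟨hx1, hx2⟩⟩ := Ultrafilter.nonempty_of_mem (Filter.inter_mem hc hreg)
  obtain ⟨y, ⟨⟨hy1, hy2⟩, hy3⟩⟩ := Ultrafilter.nonempty_of_mem
    (Filter.inter_mem (Filter.inter_mem hc hreg) (hU.ne x))
  have e1 : f x = c := hx1
  have e2 : f y = c := hy1
  have l1 : f x < x := hx2
  have l2 : f y < y := hy2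
  rcases lt_trichotomy x y with h3 | h3 | h3
  · have h4 := (hf y ⟨f y, l2⟩).2 x
    rw [e2, ← e1] at h4
    exact h4 l1 h3
  · exact hy3 h3.symm
  · have h4 := (hf x ⟨f x, l1⟩).2 y
    rw [e1, ← e2] at h4
    exact h4 l2 h3

theorem NUF.aleph0_lt (hU : NUF U) : ℵ₀ < #A := by
  obtain ⟨a, ⟨b, hb⟩, h⟩ := hU.limit_point
  refine lt_of_le_of_lt ?_ (hU.mk_Iio_lt a)
  rw [← Cardinal.infinite_iff]
  haveI : Nonempty (Set.Iio a) := ⟨⟨b, hb⟩⟩
  haveI : NoMaxOrder (Set.Iio a) := by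
    refine ⟨?_⟩
    rintro ⟨x, hx⟩
    obtain ⟨c, hc1, hc2⟩ := h x hx
    exact ⟨⟨c, hc2⟩, hc1⟩
  exact NoMaxOrder.infinite

theorem NUF.ctbl (hU : NUF U) (X : ℕ → Set A) (hX : ∀ n, X n ∈ U) : {x | ∀ n, x ∈ X n} ∈ U := by
  have h1 : #(ULift.{u} ℕ) < #A := by
    have h2 : #(ULift.{u} ℕ) = ℵ₀ := by simp
    rw [h2]
    exact hU.aleph0_lt
  have h2 := hU.inter h1 (fun n => X n.down) (fun n => hX n.down)
  refine Filter.mem_of_superset h2 ?_
  intro x hx n
  exact hx ⟨n⟩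

end Pool.Agent.Lib.MP_8fac41_lc.FR
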